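import Mathlib

set_option autoImplicit false

/-! Finitary automorphism group of the binary rooted tree. -/

namespace Run7.h703.Branch

abbrev V := List Bool

/-- the action of a portrait -/
def act (l : V → Bool) : V → V
  | [] => []
  | b :: w => (xor b (l w)) :: act l w

def actInv (l : V → Bool) : V → V
  | [] => []
  | b :: w => (xor b (l (actInv l w))) :: actInv l w

theorem actInv_act (l : V → Bool) (w : V) : actInv l (act l w) = w := by
  induction w with
  | nil => rfl
  | cons b w ih => simp [act, actInv, ih]

theorem act_actInv (l : V → Bool) (w : V) : act l (actInv l w) = w := by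
  induction w with
  | nil => rfl
  | cons b w ih => simp [act, actInv, ih]

/-- the permutation of the vertices given by a portrait -/
def mk (l : V → Bool) : Equiv.Perm V where
  toFun := act l
  invFun := actInv l
  left_inv := actInv_act l
  right_inv := act_actInv l

theorem mk_apply (l : V → Bool) (w : V) : mk l w = act l w := rfl

theorem act_length (l : V → Bool) (w : V) : (act l w).length = w.length := by
  induction w with
  | nil => rfl
  | cons b w ih => simp [act, ih]

theorem act_fix (l : V → Bool) (w : V) (h : ∀ u : V, u.length < w.length → l u = false) :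
    act l w = w := by
  induction w with
  | nil => rfl
  | cons b w ih =>
    have h1 : l w = false := h w (by simp)
    have h2 : act l w = w := ih (fun u hu => h u (by simp; omega))
    simp [act, h1, h2]

/-- the finitary automorphism group -/
def G : Subgroup (Equiv.Perm V) where
  carrier := {π | (∀ w, (π w).length = w.length) ∧ (∀ b w, (π (b :: w)).tail = π w) ∧
    ∃ n : ℕ, ∀ b w, n ≤ w.length → π (b :: w) = b :: π w}
  one_mem' := ⟨fun _ => rfl, fun _ _ => rfl, 0, fun _ _ _ => rfl⟩
  mul_mem' := by
    rintro π ρ ⟨h1, h2, n, h3⟩ ⟨k1, k2, m, k3⟩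
    refine ⟨fun w => ?_, fun b w => ?_, max n m, fun b w hw => ?_⟩
    · rw [Equiv.Perm.mul_apply, h1, k1]
    · rw [Equiv.Perm.mul_apply, Equiv.Perm.mul_apply]
      have hl : (ρ (b :: w)).length = w.length + 1 := by rw [k1]; rfl
      obtain ⟨c, u, hu⟩ := List.exists_cons_of_length_eq_add_one hl
      have := k2 b w
      rw [hu] at this ⊢
      rw [h2]
      simp at this
      rw [this]
    · rw [Equiv.Perm.mul_apply, Equiv.Perm.mul_apply, k3 b w (le_trans (le_max_right _ _) hw), h3]
      rw [k1]; exact le_trans (le_max_left _ _) hw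
  inv_mem' := by
    rintro π ⟨h1, h2, n, h3⟩
    have hlen : ∀ w, (π⁻¹ w).length = w.length := fun w => by
      have := h1 (π⁻¹ w)
      rw [show π (π⁻¹ w) = w from π.apply_symm_apply w] at this
      exact this.symm
    refine ⟨hlen, fun b w => ?_, n, fun b w hw => ?_⟩
    · have hl : (π⁻¹ (b :: w)).length = w.length + 1 := by rw [hlen]; rfl
      obtain ⟨c, u, hu⟩ := List.exists_cons_of_length_eq_add_one hl
      have h4 := h2 c u
      rw [← hu, show π (π⁻¹ (b :: w)) = b :: w from π.apply_symm_apply _] at h4
      rw [hu]
      simp only [List.tail_cons] at h4 ⊢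
      rw [h4]
      exact (π.symm_apply_apply u).symm
    · rw [Equiv.Perm.inv_eq_iff_eq, h3 b _ (by rw [hlen]; exact hw),
        show π (π⁻¹ w) = w from π.apply_symm_apply w]

theorem G_len (g : G) (w : V) : ((g : Equiv.Perm V) w).length = w.length := g.2.1 w
theorem G_tail (g : G) (b : Bool) (w : V) : ((g : Equiv.Perm V) (b :: w)).tail =
    (g : Equiv.Perm V) w := g.2.2.1 b w

theorem G_tail' (g : G) (w : V) : ((g : Equiv.Perm V) w).tail = (g : Equiv.Perm V) w.tail := by
  cases w with
  | nil =>
    have : ((g : Equiv.Perm V) []).length = 0 := by rw [G_len]; rfl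
    rw [List.length_eq_zero_iff] at this
    simp only [List.tail_nil, this]
  | cons b w => exact G_tail g b w

theorem G_nil (g : G) : (g : Equiv.Perm V) [] = [] := by
  have : ((g : Equiv.Perm V) []).length = 0 := by rw [G_len]; rfl
  rwa [List.length_eq_zero_iff] at this

/-- the label of an element at a vertex -/
def lab (g : G) (w : V) : Bool := ((g : Equiv.Perm V) (false :: w)).headD false

theorem G_cons (g : G) (b : Bool) (w : V) :
    (g : Equiv.Perm V) (b :: w) = (xor b (lab g w)) :: (g : Equiv.Perm V) w := by
  have key : ∀ b, ∃ c, (g : Equiv.Perm V) (b :: w) = c :: (g : Equiv.Perm V) w := by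
    intro b
    have hl : ((g : Equiv.Perm V) (b :: w)).length = w.length + 1 := by rw [G_len]; rfl
    obtain ⟨c, u, hu⟩ := List.exists_cons_of_length_eq_add_one hl
    have h2 := G_tail g b w
    rw [hu] at h2
    simp only [List.tail_cons] at h2
    exact ⟨c, by rw [hu, h2]⟩
  obtain ⟨c, hc⟩ := key false
  obtain ⟨d, hd⟩ := key true
  have hlab : lab g w = c := by simp [lab, hc]
  have hne : c ≠ d := by
    intro h
    have : (g : Equiv.Perm V) (false :: w) = (g : Equiv.Perm V) (true :: w) := by
      rw [hc, hd, h]
    have := (g : Equiv.Perm V).injective this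
    simp at this
  cases b with
  | false => rw [hc, hlab]; simp
  | true =>
    rw [hd, hlab]
    cases c <;> cases d <;> simp_all

theorem lab_mul (g h : G) (w : V) :
    lab (g * h) w = xor (lab h w) (lab g ((h : Equiv.Perm V) w)) := by
  have h1 : ((g * h : G) : Equiv.Perm V) (false :: w) =
      (g : Equiv.Perm V) ((h : Equiv.Perm V) (false :: w)) := rfl
  unfold lab
  rw [h1, G_cons h, G_cons g]
  simp [lab]

theorem lab_one (w : V) : lab 1 w = false := rfl

theorem lab_fin (g : G) : ∃ n : ℕ, ∀ w, n ≤ w.length → lab g w = false := by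
  obtain ⟨n, hn⟩ := g.2.2.2
  exact ⟨n, fun w hw => by simp [lab, hn false w hw]⟩

theorem mk_mem (l : V → Bool) (h : ∃ n : ℕ, ∀ w, n ≤ w.length → l w = false) : mk l ∈ G := by
  obtain ⟨n, hn⟩ := h
  refine ⟨fun w => act_length l w, fun b w => rfl, n, fun b w hw => ?_⟩
  simp [mk_apply, act, hn w hw]

theorem lab_mk (l : V → Bool) (h : ∃ n : ℕ, ∀ w, n ≤ w.length → l w = false) (w : V) :
    lab ⟨mk l, mk_mem l h⟩ w = l w := by
  simp [lab, mk_apply, act]

/-- finiteness of balls -/
theorem finite_le (n : ℕ) : {w : V | w.length ≤ n}.Finite := List.finite_length_le Bool n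

/-- value of a bit in ZMod 2 -/
def bit (b : Bool) : ZMod 2 := if b then 1 else 0

theorem bit_xor (a b : Bool) : bit (xor a b) = bit a + bit b := by
  cases a <;> cases b <;> simp [bit] ; decide

open Classical in
/-- the parity of the labels in the levels of `S` -/
noncomputable def par (S : Set ℕ) (g : G) : ZMod 2 :=
  ∑ᶠ w : V, if w.length ∈ S then bit (lab g w) else 0

open Classical in
theorem par_supp (S : Set ℕ) (g : G) :
    (Function.support fun w : V => if w.length ∈ S then bit (lab g w) else 0).Finite := by
  obtain ⟨n, hn⟩ := lab_fin g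
  refine (finite_le n).subset ?_
  intro w hw
  by_contra hlt
  simp only [Set.mem_ofPred_eq, not_le] at hlt
  apply hw
  simp [hn w hlt.le, bit]

theorem par_mul (S : Set ℕ) (g h : G) : par S (g * h) = par S g + par S h := by
  classical
  have h1 : par S (g * h) = ∑ᶠ w : V, ((if w.length ∈ S then bit (lab h w) else 0) +
      (if ((h : Equiv.Perm V) w).length ∈ S then bit (lab g ((h : Equiv.Perm V) w)) else 0)) := by
    unfold par
    apply finsum_congr
    intro w
    rw [lab_mul, bit_xor, G_len]
    split_ifs <;> simp
  have h2 : ∑ᶠ w : V, (if ((h : Equiv.Perm V) w).length ∈ S then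
      bit (lab g ((h : Equiv.Perm V) w)) else 0) = par S g := by
    unfold par
    exact finsum_comp_equiv (h : Equiv.Perm V)
      (f := fun w : V => if w.length ∈ S then bit (lab g w) else 0)
  rw [h1, finsum_add_distrib, h2, add_comm]
  · rfl
  · exact par_supp S h
  · have := par_supp S g
    have h3 : (Function.support fun w : V => (if ((h : Equiv.Perm V) w).length ∈ S then
      bit (lab g ((h : Equiv.Perm V) w)) else 0)) = (h : Equiv.Perm V) ⁻¹'
        (Function.support fun w : V => if w.length ∈ S then bit (lab g w) else 0) := rfl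
    show (Function.support fun w : V => (if ((h : Equiv.Perm V) w).length ∈ S then
      bit (lab g ((h : Equiv.Perm V) w)) else 0)).Finite
    rw [h3]
    exact this.preimage (h : Equiv.Perm V).injective.injOn

/-- the character -/
noncomputable def chi (S : Set ℕ) : G →* Multiplicative (ZMod 2) where
  toFun g := Multiplicative.ofAdd (par S g)
  map_one' := by
    have : par S (1 : G) = 0 := by
      unfold par
      rw [finsum_eq_zero_of_forall_eq_zero]
      intro w
      simp [lab_one, bit]
    simp [this]
  map_mul' g h := by simp [par_mul]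

/-- the pointwise stabiliser of the ball of radius `n` -/
def St (n : ℕ) : Subgroup G where
  carrier := {g | ∀ w : V, w.length ≤ n → (g : Equiv.Perm V) w = w}
  one_mem' := fun _ _ => rfl
  mul_mem' := by
    intro a b ha hb w hw
    show (a : Equiv.Perm V) ((b : Equiv.Perm V) w) = w
    rw [hb w hw, ha w hw]
  inv_mem' := by
    intro a ha w hw
    show (a : Equiv.Perm V)⁻¹ w = w
    rw [Equiv.Perm.inv_eq_iff_eq, ha w hw]

theorem mem_St (n : ℕ) (g : G) : g ∈ St n ↔ ∀ w : V, w.length ≤ n → (g : Equiv.Perm V) w = w :=
  Iff.rfl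

theorem St_anti : Antitone St := by
  intro m n hmn g hg w hw
  exact hg w (hw.trans hmn)

/-- the action on the ball of radius `n` -/
def ballAct (n : ℕ) : G →* Equiv.Perm {w : V // w.length ≤ n} where
  toFun g :=
    { toFun := fun w => ⟨(g : Equiv.Perm V) w, by rw [G_len]; exact w.2⟩
      invFun := fun w => ⟨((g⁻¹ : G) : Equiv.Perm V) w, by rw [G_len]; exact w.2⟩
      left_inv := fun w => by
        apply Subtype.ext
        show (g : Equiv.Perm V)⁻¹ ((g : Equiv.Perm V) w) = w
        simp
      right_inv := fun w => by
        apply Subtype.ext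
        show (g : Equiv.Perm V) ((g : Equiv.Perm V)⁻¹ w) = w
        simp }
  map_one' := by ext w; rfl
  map_mul' g h := by ext w; rfl

theorem St_eq_ker (n : ℕ) : St n = (ballAct n).ker := by
  ext g
  rw [mem_St, MonoidHom.mem_ker]
  constructor
  · intro h
    ext1 w
    exact Subtype.ext (h w.1 w.2)
  · intro h w hw
    have := congrArg (fun e : Equiv.Perm {w : V // w.length ≤ n} => (e ⟨w, hw⟩ : V)) h
    exact this

theorem St_normal (n : ℕ) : (St n).Normal := by
  rw [St_eq_ker]; infer_instance

theorem St_finiteIndex (n : ℕ) : (St n).FiniteIndex := by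
  rw [St_eq_ker]
  have : Finite {w : V // w.length ≤ n} := (finite_le n).to_subtype
  infer_instance

/-- the ancestor of `w` at level `n` (or `w` itself when it is higher up) -/
def anc (n : ℕ) (w : V) : V := w.drop (w.length - n)

theorem anc_of_le {n : ℕ} {w : V} (h : w.length ≤ n) : anc n w = w := by
  simp [anc, Nat.sub_eq_zero_of_le h]

theorem anc_cons {n : ℕ} {b : Bool} {w : V} (h : n ≤ w.length) : anc n (b :: w) = anc n w := by
  unfold anc
  rw [List.length_cons, Nat.succ_sub h, List.drop_succ_cons]

theorem anc_length {n : ℕ} {w : V} (h : n ≤ w.length) : (anc n w).length = n := by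
  simp [anc]; omega

theorem G_drop (g : G) (k : ℕ) (w : V) :
    ((g : Equiv.Perm V) w).drop k = (g : Equiv.Perm V) (w.drop k) := by
  induction k generalizing w with
  | zero => simp
  | succ k ih =>
    rw [← List.drop_drop, ← List.drop_drop, List.drop_one, List.drop_one, ← G_tail', ih]

theorem G_anc (g : G) {n : ℕ} (hg : g ∈ St n) (w : V) : anc n ((g : Equiv.Perm V) w) = anc n w := by
  by_cases h : w.length ≤ n
  · rw [hg w h]
  · push Not at h
    unfold anc
    rw [G_len, G_drop]
    exact hg _ (by simp; omega)

theorem anc_iterate (n : ℕ) (w : V) : ∃ k : ℕ, (List.tail^[k]) w = anc n w := by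
  refine ⟨w.length - n, ?_⟩
  unfold anc
  generalize w.length - n = k
  induction k generalizing w with
  | zero => rfl
  | succ k ih =>
    rw [Function.iterate_succ_apply, ih, List.drop_tail]

open Classical in
/-- restriction of an element of the stabiliser of level `n` to the subtrees below `T` -/
noncomputable def resFun (n : ℕ) (g : G) (T : Set V) (w : V) : V :=
  if anc n w ∈ T then (g : Equiv.Perm V) w else w

theorem resFun_pos {n : ℕ} {g : G} {T : Set V} {w : V} (h : anc n w ∈ T) :
    resFun n g T w = (g : Equiv.Perm V) w := by simp [resFun, h]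

theorem resFun_neg {n : ℕ} {g : G} {T : Set V} {w : V} (h : anc n w ∉ T) :
    resFun n g T w = w := by simp [resFun, h]

theorem resFun_low {n : ℕ} {g : G} (hg : g ∈ St n) {T : Set V} {w : V} (h : w.length ≤ n) :
    resFun n g T w = w := by
  by_cases h1 : anc n w ∈ T
  · rw [resFun_pos h1, hg w h]
  · rw [resFun_neg h1]

theorem anc_resFun {n : ℕ} {g : G} (hg : g ∈ St n) (T : Set V) (w : V) :
    anc n (resFun n g T w) = anc n w := by
  by_cases h1 : anc n w ∈ T
  · rw [resFun_pos h1, G_anc g hg]
  · rw [resFun_neg h1]

theorem resFun_inv {n : ℕ} {g : G} (hg : g ∈ St n) (T : Set V) (w : V) :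
    resFun n g⁻¹ T (resFun n g T w) = w := by
  by_cases h1 : anc n w ∈ T
  · have h2 : anc n (resFun n g T w) ∈ T := by rwa [anc_resFun hg]
    rw [resFun_pos h2, resFun_pos h1]
    exact (g : Equiv.Perm V).symm_apply_apply w
  · have h2 : anc n (resFun n g T w) ∉ T := by rwa [anc_resFun hg]
    rw [resFun_neg h2, resFun_neg h1]

/-- restriction as a permutation -/
noncomputable def resPerm (n : ℕ) (g : G) (hg : g ∈ St n) (T : Set V) : Equiv.Perm V where
  toFun := resFun n g T
  invFun := resFun n g⁻¹ T
  left_inv := resFun_inv hg T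
  right_inv := by
    have := resFun_inv (inv_mem hg) T
    rw [inv_inv] at this
    exact this

theorem resPerm_mem (n : ℕ) (g : G) (hg : g ∈ St n) (T : Set V) : resPerm n g hg T ∈ G := by
  obtain ⟨m, hm⟩ := g.2.2.2
  refine ⟨fun w => ?_, fun b w => ?_, max n m, fun b w hw => ?_⟩
  · show (resFun n g T w).length = w.length
    by_cases h1 : anc n w ∈ T
    · rw [resFun_pos h1, G_len]
    · rw [resFun_neg h1]
  · show (resFun n g T (b :: w)).tail = resFun n g T w
    by_cases h : n ≤ w.length
    · by_cases h1 : anc n w ∈ T
      · have h2 : anc n (b :: w) ∈ T := by rwa [anc_cons h]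
        rw [resFun_pos h1, resFun_pos h2, G_tail]
      · have h2 : anc n (b :: w) ∉ T := by rwa [anc_cons h]
        rw [resFun_neg h1, resFun_neg h2]; rfl
    · push Not at h
      rw [resFun_low hg (w := b :: w) (by simp; omega), resFun_low hg h.le]; rfl
  · show resFun n g T (b :: w) = b :: resFun n g T w
    have h : n ≤ w.length := le_trans (le_max_left _ _) hw
    by_cases h1 : anc n w ∈ T
    · have h2 : anc n (b :: w) ∈ T := by rwa [anc_cons h]
      rw [resFun_pos h1, resFun_pos h2, hm b w (le_trans (le_max_right _ _) hw)]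
    · have h2 : anc n (b :: w) ∉ T := by rwa [anc_cons h]
      rw [resFun_neg h1, resFun_neg h2]

/-- restriction as an element of the group -/
noncomputable def res (n : ℕ) (g : G) (hg : g ∈ St n) (T : Set V) : G :=
  ⟨resPerm n g hg T, resPerm_mem n g hg T⟩

theorem res_apply (n : ℕ) (g : G) (hg : g ∈ St n) (T : Set V) (w : V) :
    ((res n g hg T : G) : Equiv.Perm V) w = resFun n g T w := rfl

/-- the generators of the rigid stabiliser of level `n` -/
def ristGen (n : ℕ) : Set G :=
  {g : G | ∃ v : V, v.length = n ∧ ∀ w : V, (∀ k : ℕ, List.tail^[k] w ≠ v) → g • w = w}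

theorem res_mem_closure (n : ℕ) (g : G) (hg : g ∈ St n) (T : Finset V)
    (hT : ∀ v ∈ T, v.length = n) :
    res n g hg (T : Set V) ∈ Subgroup.closure (ristGen n) := by
  classical
  induction T using Finset.induction_on with
  | empty =>
    have : res n g hg ((∅ : Finset V) : Set V) = 1 := by
      apply Subtype.ext
      apply Equiv.ext
      intro w
      rw [res_apply, resFun_neg (by simp)]
      rfl
    rw [this]; exact one_mem _
  | insert v T hv ih =>
    have h1 : res n g hg ((insert v T : Finset V) : Set V) =
        res n g hg {v} * res n g hg (T : Set V) := by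
      apply Subtype.ext
      apply Equiv.ext
      intro w
      show resFun n g _ w = resFun n g {v} (resFun n g (T : Set V) w)
      by_cases h2 : anc n w = v
      · have h3 : anc n w ∉ (T : Set V) := by rw [h2]; simpa using hv
        rw [resFun_neg h3, resFun_pos (by simp [h2]), resFun_pos (by simp [h2])]
      · have h3 : anc n (resFun n g (T : Set V) w) ∉ ({v} : Set V) := by
          rw [anc_resFun hg]; simpa using h2
        rw [resFun_neg h3]
        by_cases h4 : anc n w ∈ (T : Set V)
        · rw [resFun_pos h4, resFun_pos]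
          simp at h4 ⊢
          exact Or.inr h4
        · rw [resFun_neg h4, resFun_neg]
          simp at h4 ⊢
          exact ⟨h2, h4⟩
    rw [h1]
    refine mul_mem (Subgroup.subset_closure ⟨v, hT v (by simp), fun w hw => ?_⟩)
      (ih fun u hu => hT u (by simp [hu]))
    show resFun n g {v} w = w
    apply resFun_neg
    obtain ⟨k, hk⟩ := anc_iterate n w
    rw [← hk]
    simpa using hw k

theorem St_le_rist (n : ℕ) : St n ≤ Subgroup.closure (ristGen n) := by
  intro g hg
  have hfin : {w : V | w.length = n}.Finite := (finite_le n).subset fun w hw => le_of_eq hw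
  have h1 := res_mem_closure n g hg hfin.toFinset (by simp)
  have h2 : res n g hg ((hfin.toFinset : Finset V) : Set V) = g := by
    apply Subtype.ext
    apply Equiv.ext
    intro w
    rw [res_apply]
    by_cases h : n ≤ w.length
    · rw [resFun_pos]
      simp [anc_length h]
    · push Not at h
      rw [resFun_low hg h.le, hg w h.le]
  rwa [h2] at h1

theorem rist_finiteIndex (n : ℕ) : (Subgroup.closure (ristGen n)).FiniteIndex := by
  have := St_finiteIndex n
  exact Subgroup.finiteIndex_of_le (St_le_rist n)

theorem flip_aux (v : V) : ∃ n : ℕ, ∀ w : V, n ≤ w.length → decide (w = v) = false :=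
  ⟨v.length + 1, fun w hw => by
    simp only [decide_eq_false_iff_not]
    intro h; rw [h] at hw; omega⟩

/-- the flip at a vertex -/
noncomputable def flip (v : V) : G :=
  ⟨mk (fun w => decide (w = v)), mk_mem _ (flip_aux v)⟩

theorem lab_flip (v w : V) : lab (flip v) w = decide (w = v) := lab_mk _ (flip_aux v) w

theorem flip_fix (v w : V) (h : w.length ≤ v.length) : (flip v : Equiv.Perm V) w = w := by
  show act _ w = w
  apply act_fix
  intro u hu
  simp only [decide_eq_false_iff_not]
  intro h2; rw [h2] at hu; omega

theorem flip_cons (v : V) (b : Bool) : (flip v : Equiv.Perm V) (b :: v) = (!b) :: v := by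
  rw [G_cons, lab_flip, flip_fix v v le_rfl]; simp

theorem transitive (v w : V) (h : v.length = w.length) : ∃ g : G, (g : Equiv.Perm V) v = w := by
  induction v generalizing w with
  | nil =>
    refine ⟨1, ?_⟩
    have : w = [] := by rw [← List.length_eq_zero_iff, ← h]; rfl
    rw [this]; rfl
  | cons b v ih =>
    obtain ⟨c, u, hu⟩ := List.exists_cons_of_length_eq_add_one (l := w) (n := v.length)
      (by rw [← h]; rfl)
    subst hu
    obtain ⟨g, hg⟩ := ih u (by simpa using h)
    by_cases hc : xor b (lab g v) = c
    · exact ⟨g, by rw [G_cons, hg, hc]⟩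
    · refine ⟨flip u * g, ?_⟩
      show (flip u : Equiv.Perm V) ((g : Equiv.Perm V) (b :: v)) = c :: u
      rw [G_cons, hg, flip_cons]
      congr 1
      revert hc
      cases b <;> cases c <;> cases lab g v <;> simp

theorem par_flip (S : Set ℕ) (v : V) [Decidable (v.length ∈ S)] :
    par S (flip v) = if v.length ∈ S then 1 else 0 := by
  classical
  unfold par
  rw [finsum_eq_single _ v]
  · simp [lab_flip, bit]
  · intro w hw
    simp [lab_flip, hw, bit]

/-- the sets of levels -/
def Sa (a : ℕ) : Set ℕ := {k | (Nat.unpair k).1 = a}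

/-- the normal T-sequences -/
noncomputable def M (a i : ℕ) : Subgroup G := St i ⊓ (chi (Sa a)).ker

theorem M_anti (a : ℕ) : Antitone (M a) := fun _ _ h => inf_le_inf_right _ (St_anti h)

theorem M_normal (a i : ℕ) : (M a i).Normal := by
  have := St_normal i
  unfold M; infer_instance

theorem M_finiteIndex (a i : ℕ) : (M a i).FiniteIndex := by
  have := St_finiteIndex i
  unfold M; infer_instance

theorem M_iInf (a : ℕ) : (⨅ i : ℕ, M a i) = ⊥ := by
  rw [eq_bot_iff]
  intro g hg
  rw [Subgroup.mem_bot]
  apply Subtype.ext
  apply Equiv.ext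
  intro w
  rw [Subgroup.mem_iInf] at hg
  exact (hg w.length).1 w le_rfl

theorem M_ineq (a b : ℕ) (hab : a ≠ b) (j : ℕ) : ¬ M b j ≤ M a 0 := by
  intro h
  classical
  set v : V := List.replicate (Nat.pair a j) false with hv
  have hlen : v.length = Nat.pair a j := by simp [hv]
  have h1 : flip v ∈ M b j := by
    refine ⟨fun w hw => flip_fix v w ?_, ?_⟩
    · rw [hlen]; exact hw.trans (Nat.right_le_pair a j)
    · show Multiplicative.ofAdd (par (Sa b) (flip v)) = 1
      rw [par_flip, if_neg]
      · rfl
      · simp [Sa, hlen, hab]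
  have h3 : par (Sa a) (flip v) = 0 := (h h1).2
  rw [par_flip, if_pos (by simp [Sa, hlen])] at h3
  exact one_ne_zero h3

end Run7.h703.Branch
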